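import Pool.Agent.W81.FA.Two

/-!
Chowla's conjecture in arithmetic progressions for almost all integer polynomials of degree at most
`d` and height at most `H` (all `d + 1` coefficients vary), simultaneously for all progressions of
modulus at most `(log H)^C` and all `x` with `(log H)^B ≤ x ≤ H / (log H)^B`.
-/

set_option autoImplicit false

namespace Pool.Agent.Results.MP_d639b3_nt.AlmostAllPolynomials

open Finset Polynomial

/-- Liouville's function `λ(m) = (-1)^Ω(|m|)`, with `λ(0) = 0` -/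
noncomputable def liouville (m : ℤ) : ℤ :=
  if m = 0 then 0 else (-1) ^ (ArithmeticFunction.cardFactors m.natAbs)

/-- the polynomial `c₀ + c₁ X + ... + c_d X^d` -/
noncomputable def pol {d : ℕ} (c : Fin (d + 1) → ℤ) : ℤ[X] :=
  ∑ i : Fin (d + 1), C (c i) * X ^ (i : ℕ)

/-- the sum of `λ(f(n))` over the integers `n` with `|n| ≤ x` and `n ≡ b mod q` -/
noncomputable def progSum (f : ℤ[X]) (q : ℕ) (b : ℤ) (x : ℕ) : ℤ :=
  ∑ n ∈ (Icc (-(x : ℤ)) (x : ℤ)).filter (fun n : ℤ => (q : ℤ) ∣ n - b), liouville (f.eval n)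

open Classical in
/-- **Chowla's conjecture for almost all polynomials of height at most `H`.** Let `d ≥ 1`, `A` and
`U` be given, and let `B` and then `H` be large in terms of these. Among the `(2H + 1)^(d+1)`
integer polynomials `f = c₀ + c₁ X + ... + c_d X^d` with all `|c_i| ≤ H`, all but at most
`(2H + 1)^(d+1) / (log H)^U` satisfy
`|∑_{|n| ≤ x, n ≡ b mod q} λ(f(n))| ≤ x / (log H)^U` simultaneously for all moduli
`1 ≤ q ≤ (log H)^A`, all residues `b` and all `x` with `(log H)^B ≤ x ≤ H / (log H)^B`. -/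
theorem result (d : ℕ) (hd : 1 ≤ d) (A U : ℕ) : ∃ B H0 : ℕ, ∀ H : ℕ, H0 ≤ H →
    (((Fintype.piFinset (fun _ : Fin (d + 1) => Icc (-(H : ℤ)) (H : ℤ))).filter (fun c =>
      ∃ q : ℕ, 1 ≤ q ∧ (q : ℝ) ≤ Real.log H ^ A ∧ ∃ b : ℤ, ∃ x : ℕ,
        Real.log H ^ B ≤ x ∧ (x : ℝ) * Real.log H ^ B ≤ H ∧
        (x : ℝ) / Real.log H ^ U < |((progSum (pol c) q b x : ℤ) : ℝ)|)).card : ℝ) ≤
      (2 * (H : ℝ) + 1) ^ (d + 1) / Real.log H ^ U := by
  obtain ⟨B, H0, h⟩ := Pool.Agent.W81.FA.two_sided d hd Pool.Agent.W81.FA.lamN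
    Pool.Agent.W81.FA.lamN_norm Pool.Agent.W81.FA.lamN_fourier A U
  refine ⟨B, H0, fun H hH => ?_⟩
  refine le_trans (le_of_eq ?_) (h H hH)
  rw [Nat.cast_inj]
  apply congrArg Finset.card
  unfold Pool.Agent.W81.FH.hbox
  apply filter_congr
  intro c _
  have hval : ∀ (q : ℕ) (b : ℤ) (x : ℕ), |((progSum (pol c) q b x : ℤ) : ℝ)| =
      ‖Pool.Agent.W81.FA.ZG Pool.Agent.W81.FA.lamN q b (Pool.Agent.W81.FH.pol c) x‖ := by
    intro q b x
    have h1 : Pool.Agent.W81.FA.ZG Pool.Agent.W81.FA.lamN q b (Pool.Agent.W81.FH.pol c) x =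
        (((progSum (pol c) q b x : ℤ) : ℝ) : ℂ) := by
      unfold Pool.Agent.W81.FA.ZG progSum
      push_cast
      refine sum_congr rfl fun n _ => ?_
      unfold Pool.Agent.W81.FA.lamN liouville
      have h2 : (Pool.Agent.W81.FH.pol c).eval n = (pol c).eval n := rfl
      rw [h2]
      by_cases h0 : (pol c).eval n = 0
      · rw [if_pos h0, if_pos (by rw [h0]; rfl)]
        simp
      · rw [if_neg h0, if_neg (by omega)]
        push_cast
        rfl
    rw [h1, Complex.norm_real, Real.norm_eq_abs]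
  simp only [hval]

end Pool.Agent.Results.MP_d639b3_nt.AlmostAllPolynomials
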