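import Pool.Agent.H220M.Fin2
import Pool.Agent.H220M.B1
import Pool.Agent.H220M.B2
import Pool.Agent.H220M.B4
import Pool.Agent.H220M.P1
import Pool.Agent.H220M.P2
import Pool.Agent.H220M.P3

/-!
# Polynomial values: all but few modifications at finitely many primes

For every `F ∈ ℤ[T]` and `η > 0` there is `L` such that for every finite set `Q` of primes for which
the sum of `1/q` over the `q ∈ Q` with a simple root of `F` modulo `q` is at least `L`, at every
scale `x ≥ x₀(Q)`, for every completely multiplicative `g` with values `±1` and every bounded weight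
`w` (for instance the indicator function of an arithmetic progression): all but `η 2^|Q|` of the
completely multiplicative functions `f` with values `±1` which agree with `g` off `Q` satisfy
`|∑_{n ≤ x} w(n) f(|F(n)|)| ≤ η x`.
-/

set_option autoImplicit false

namespace Pool.Agent.Results.MP_d639b3_nt.FiniteModificationsPoly

open Finset Polynomial Pool.Agent.H220M

open Classical in
theorem result (F : ℤ[X]) (η : ℝ) (hη : 0 < η) :
    ∃ L : ℝ, ∀ Q : Finset ℕ, (∀ q ∈ Q, q.Prime) →
      L ≤ ∑ q ∈ Q.filter (fun q => SimpleRoot F q), (1 : ℝ) / q →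
      ∃ x₀ : ℕ, ∀ g : ℕ →*₀ ℤ, (∀ p : ℕ, p.Prime → g p = 1 ∨ g p = -1) →
        ∀ w : ℕ → ℝ, (∀ m, |w m| ≤ 1) → ∀ x ≥ x₀,
          ({f ∈ family g Q | η * x <
            |∑ m ∈ Icc 1 x, w m * ((f ((F.eval (m : ℤ)).natAbs) : ℤ) : ℝ)|}.ncard : ℝ)
            ≤ η * 2 ^ Q.card ∧ (family g Q).Finite ∧ (family g Q).ncard = 2 ^ Q.card := by
  obtain ⟨L, hL⟩ := finalP (tP3 (tP1 tB1 tB2 tB4) tP2) F η hη
  refine ⟨L, fun Q hQ hs => ?_⟩
  obtain ⟨x₀, hx⟩ := hL Q hQ hs
  refine ⟨x₀, fun g hg w hw x hxx => ?_⟩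
  obtain ⟨_, h1, h2, _⟩ := family_bad g hg Q hQ
  exact ⟨hx g hg w hw x hxx, h1, h2⟩

end Pool.Agent.Results.MP_d639b3_nt.FiniteModificationsPoly
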