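import Pool.Agent.W251.EG.Out4

/-!
Completely multiplicative functions at the factorisations `d d' = a m^2 + b m + e` of the values of
a quadratic polynomial whose discriminant is the discriminant of an imaginary quadratic field of
class number one, `m` in an arithmetic progression: cancellation at almost all scales.
-/

set_option autoImplicit false

namespace Pool.Agent.Results.MP_d639b3_nt.QuadraticAlmostAllScales

open Finset Filter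

open scoped Classical in
/-- the pairs `(d, d')` of positive integers with `s₁ X < d ≤ s₂ X`, `s₃ X < d' ≤ s₄ X` and
`d d' = a m^2 + b m + e` for some integer `m ≥ 0`, where `m ≡ u` and `d ≡ r` modulo `q` -/
noncomputable def pairs (a b e : ℤ) (q u r : ℕ) (s₁ s₂ s₃ s₄ : ℝ) (X : ℕ) : Finset (ℕ × ℕ) :=
  ((Icc 1 ⌊s₂ * X⌋₊) ×ˢ (Icc 1 ⌊s₄ * X⌋₊)).filter
    (fun p => s₁ * X < (p.1 : ℝ) ∧ s₃ * X < (p.2 : ℝ) ∧
      ∃ m : ℕ, (p.1 * p.2 : ℤ) = a * (m : ℤ) ^ 2 + b * m + e ∧ m ≡ u [MOD q] ∧ p.1 ≡ r [MOD q])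

open scoped Classical in
/-- the set of the positive integers `X` with `P X` has logarithmic density `0` -/
def LogNull (P : ℕ → Prop) : Prop :=
  Tendsto (fun Z : ℕ => (∑ X ∈ (Icc 1 Z).filter P, 1 / (X : ℝ)) / Real.log Z) atTop (nhds 0)

/-- `g` is completely multiplicative on the positive integers and its values are `N`-th roots of
unity -/
def CMul (N : ℕ) (g : ℕ → ℂ) : Prop :=
  (∀ m n : ℕ, m ≠ 0 → n ≠ 0 → g (m * n) = g m * g n) ∧ ∀ n : ℕ, n ≠ 0 → g n ^ N = 1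

open scoped Classical in
/-- `∑ h(x^2 + t x y + c y^2) = o(X)`, the sum over the pairs of integers `x ≡ u`, `y ≡ v` modulo
`M` with `1 ≤ x^2 + t x y + c y^2 ≤ X` (then `|x|, |y| ≤ 2 X`), for all `M`, `u`, `v` -/
def Aperiodic (t c : ℕ) (h : ℕ → ℂ) : Prop :=
  ∀ (M : ℕ) (u v : ℤ), 1 ≤ M → Tendsto (fun X : ℕ =>
    (∑ z ∈ (Icc (-(2 * (X : ℤ))) (2 * X) ×ˢ Icc (-(2 * (X : ℤ))) (2 * X)).filter
      (fun z : ℤ × ℤ => z.1 ≡ u [ZMOD M] ∧ z.2 ≡ v [ZMOD M] ∧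
        1 ≤ z.1 ^ 2 + t * z.1 * z.2 + c * z.2 ^ 2 ∧ z.1 ^ 2 + t * z.1 * z.2 + c * z.2 ^ 2 ≤ X),
      h (z.1 ^ 2 + t * z.1 * z.2 + c * z.2 ^ 2).toNat) / (X : ℂ)) atTop (nhds 0)

open scoped Classical in
/-- Let `x^2 + t x + c` be one of `x^2+1`, `x^2+2`, `x^2+x+1`, `x^2+x+2`, `x^2+x+3`, `x^2+x+5`,
`x^2+x+11`, `x^2+x+17`, `x^2+x+41` (discriminants `-4, -8, -3, -7, -11, -19, -43, -67, -163`), let
`a m^2 + b m + e`, `a > 0`, be a quadratic polynomial with the same discriminant, and `u` a residue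
class modulo `q`.

1. At least `c₁ X` pairs `(d, d')` with `d, d' ≤ X` have `d d' = a m^2 + b m + e`, `m ≡ u mod q`.
2. The sum of `λ(d d')` over `pairs` is `o(X)` for almost all `X` (`λ` the Liouville function).
3. Let `g`, `h` be completely multiplicative functions with values in the `N`-th roots of unity,
   such that `g(p) h(p) = τ` does not depend on the prime `p` among the primes which divide some
   `n^2 + t n + c`, and let `h` be aperiodic. Then the sum of `g(d) h(d')` over `pairs` is `o(X)` for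
   almost all `X`. -/
theorem result (t c : ℕ) (htc : (t, c) ∈ ([(0, 1), (0, 2), (1, 1), (1, 2), (1, 3), (1, 5),
    (1, 11), (1, 17), (1, 41)] : List (ℕ × ℕ))) (a b e : ℤ) (ha : 0 < a)
    (hdisc : b ^ 2 - 4 * a * e = (t : ℤ) ^ 2 - 4 * (c : ℤ)) (q u : ℕ) (hq : 1 ≤ q) :
    (∃ c₁ : ℝ, 0 < c₁ ∧ ∃ X₀ : ℕ, ∀ X : ℕ, X₀ ≤ X →
      c₁ * X ≤ (((Icc 1 X ×ˢ Icc 1 X).filter (fun p : ℕ × ℕ => ∃ m : ℕ,
        (p.1 * p.2 : ℤ) = a * (m : ℤ) ^ 2 + b * m + e ∧ m ≡ u [MOD q])).card : ℝ)) ∧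
    (∀ (r : ℕ) (s₁ s₂ s₃ s₄ : ℝ), 0 ≤ s₁ → s₁ < s₂ → 0 ≤ s₃ → s₃ < s₄ → ∀ ε : ℝ, 0 < ε →
      LogNull (fun X => ε * X < |∑ p ∈ pairs a b e q u r s₁ s₂ s₃ s₄ X,
        (-1 : ℝ) ^ ArithmeticFunction.cardFactors (p.1 * p.2)|)) ∧
    ∀ (N : ℕ) (τ : ℂ) (g h : ℕ → ℂ), 1 ≤ N → CMul N g → CMul N h →
      (∀ p : ℕ, p.Prime → (∃ n : ℕ, p ∣ n ^ 2 + t * n + c) → g p * h p = τ) →
      Aperiodic t c h →
      ∀ (r : ℕ) (s₁ s₂ s₃ s₄ : ℝ), 0 ≤ s₁ → s₁ < s₂ → 0 ≤ s₃ → s₃ < s₄ → ∀ ε : ℝ, 0 < ε →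
        LogNull (fun X => ε * X < ‖∑ p ∈ pairs a b e q u r s₁ s₂ s₃ s₄ X, g p.1 * h p.2‖) := by
  obtain ⟨f, χ, hF⟩ := Pool.Agent.W251.EG.fd9 t c htc
  refine ⟨?_, ?_, ?_⟩
  · exact Pool.Agent.W251.EG.lowqG hF a b e ha hdisc q u hq
  · intro r s₁ s₂ s₃ s₄ h1 h2 h3 h4 ε hε
    exact Pool.Agent.W251.EG.outTL hF ha hdisc q hq u r s₁ s₂ s₃ s₄ ε h1 h2 h3 h4 hε
  · intro N τ g h hN hg hh tw hap r s₁ s₂ s₃ s₄ h1 h2 h3 h4 ε hε
    exact Pool.Agent.W251.EG.outT hF ha hdisc hN hg.1 hh.1 hg.2 hh.2 tw hap q hq u r s₁ s₂ s₃ s₄ ε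
      h1 h2 h3 h4 hε

end Pool.Agent.Results.MP_d639b3_nt.QuadraticAlmostAllScales
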